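import Pool.Agent.K3h91.OSC.System

/-!
Deterministic online hitting set on set systems of VC-dimension at most 2 has competitive ratio
of order at least `log ^ 2 n`.
-/

namespace Pool.Agent.Results.MP_ba67f2_lc.HittingSetLower

open Finset

/-- An input of the online hitting set problem on the set system `(Fin n, 𝒮)`: a list of nonempty
members of `𝒮`, in their order of arrival. -/
def IsInput {n : ℕ} (𝒮 : Finset (Finset (Fin n))) (h : List (Finset (Fin n))) : Prop :=
  ∀ s ∈ h, s ∈ 𝒮 ∧ s.Nonempty

/-- The point set `H` meets every set of the list `h`. -/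
def IsHitting {n : ℕ} (H : Finset (Fin n)) (h : List (Finset (Fin n))) : Prop :=
  ∀ s ∈ h, ∃ p ∈ H, p ∈ s

/-- The minimum size of a hitting set of the sets in the list `h`. -/
noncomputable def opt {n : ℕ} (h : List (Finset (Fin n))) : ℕ :=
  sInf {k | ∃ H : Finset (Fin n), IsHitting H h ∧ H.card = k}

/-- A deterministic online algorithm for hitting set on the set system `(Fin n, 𝒮)` (it may depend
on the whole system): `sel h` is the set of points selected once the sets of the list `h` have
arrived in this order; selections are irrevocable, and after each arrival every arrived set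
contains a selected point. Any number of points may be selected at any time. -/
structure OnlineAlg {n : ℕ} (𝒮 : Finset (Finset (Fin n))) where
  /-- the selected points after the arrival of the sets in the list -/
  sel : List (Finset (Fin n)) → Finset (Fin n)
  irrevocable : ∀ h s, IsInput 𝒮 (h ++ [s]) → sel h ⊆ sel (h ++ [s])
  hits : ∀ h, IsInput 𝒮 h → IsHitting (sel h) h

lemma exists_min {n : ℕ} {h : List (Finset (Fin n))} {H : Finset (Fin n)} (hH : IsHitting H h) :
    opt h ≤ H.card := Nat.sInf_le ⟨H, hH, rfl⟩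

lemma opt_pos {n : ℕ} {h : List (Finset (Fin n))} {H : Finset (Fin n)} (hH : IsHitting H h)
    (hne : h ≠ []) : 0 < opt h := by
  have hmem : opt h ∈ {k | ∃ H : Finset (Fin n), IsHitting H h ∧ H.card = k} :=
    Nat.sInf_mem ⟨H.card, H, hH, rfl⟩
  obtain ⟨H', hH', hc⟩ := hmem
  rw [← hc, card_pos]
  obtain ⟨s, hs⟩ := List.exists_mem_of_ne_nil h hne
  obtain ⟨p, hp, _⟩ := hH' s hs
  exact ⟨p, hp⟩

open Pool.Agent.K3h91.OSC in
/-- There are `c > 0` and `n₀` such that for every `n ≥ n₀` there is a set system on `n` points, of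
VC-dimension at most 2, on which every deterministic online hitting set algorithm has an input on
which its cost is at least `c (log n)² ` times the (positive) optimum. -/
theorem result : ∃ c : ℝ, 0 < c ∧ ∃ n₀ : ℕ, ∀ n ≥ n₀,
    ∃ 𝒮 : Finset (Finset (Fin n)), 𝒮.vcDim ≤ 2 ∧
      ∀ A : OnlineAlg 𝒮, ∃ h, IsInput 𝒮 h ∧ 0 < opt h ∧
        c * (Real.log n) ^ 2 * opt h ≤ (A.sel h).card := by
  classical
  refine ⟨1 / 1000000, by norm_num, 2 ^ 3000, fun n hn => ?_⟩
  obtain ⟨hx, hxn, hlog⟩ := log_bound (a := 3000) (by norm_num) hn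
  set x := Nat.log 2 n / 3000 with hxdef
  have hL : 0 < 48 * x := by omega
  obtain ⟨I, hnice, hrich, _, hSne⟩ := exists_system hx hL
  have hq : 0 < 2 ^ (2000 * x) := by positivity
  obtain ⟨e⟩ : Nonempty (X (1000 * x) (2 ^ (2000 * x)) ↪ Fin n) := by
    apply Function.Embedding.nonempty_of_card_le
    simp only [Fintype.card_prod, Fintype.card_fin]
    rw [← pow_add]
    have : 2000 * x + 1000 * x = 3000 * x := by ring
    rw [this]
    exact hxn
  let F : J (48 * x) (2 ^ (2000 * x)) → Finset (Fin n) := fun j => (S (H := 1000 * x) hL j).map e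
  have hF : ∀ j p, e p ∈ F j ↔ p ∈ S (H := 1000 * x) hL j := by
    intro j p
    simp [F]
  refine ⟨I.image F, ?_, ?_⟩
  · unfold vcDim
    refine Finset.sup_le fun s hs => ?_
    rw [mem_shatterer] at hs
    by_contra hcon
    push Not at hcon
    obtain ⟨a, b, c, ha, hb, hc, hab, hac, hbc⟩ := two_lt_card_iff.1 hcon
    obtain ⟨u1, hu1, h1⟩ := hs (subset_refl s)
    obtain ⟨u2, hu2, h2⟩ := hs (show {a, b} ⊆ s by
      intro y hy; rw [mem_insert, mem_singleton] at hy; rcases hy with rfl | rfl <;> assumption)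
    obtain ⟨u3, hu3, h3⟩ := hs (show {b, c} ⊆ s by
      intro y hy; rw [mem_insert, mem_singleton] at hy; rcases hy with rfl | rfl <;> assumption)
    rw [mem_image] at hu1 hu2 hu3
    obtain ⟨j1, hj1, rfl⟩ := hu1
    obtain ⟨j2, hj2, rfl⟩ := hu2
    obtain ⟨j3, hj3, rfl⟩ := hu3
    have key1 : ∀ y ∈ s, y ∈ F j1 := by
      intro y hy
      rw [← h1] at hy
      exact (mem_inter.1 hy).2
    have key2 : ∀ y ∈ s, (y ∈ F j2 ↔ y = a ∨ y = b) := by
      intro y hy
      have : y ∈ s ∩ F j2 ↔ y ∈ ({a, b} : Finset (Fin n)) := by rw [h2]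
      simpa [hy] using this
    have key3 : ∀ y ∈ s, (y ∈ F j3 ↔ y = b ∨ y = c) := by
      intro y hy
      have : y ∈ s ∩ F j3 ↔ y ∈ ({b, c} : Finset (Fin n)) := by rw [h3]
      simpa [hy] using this
    obtain ⟨a', _, rfl⟩ := mem_map.1 (key1 a ha)
    obtain ⟨b', _, rfl⟩ := mem_map.1 (key1 b hb)
    obtain ⟨c', _, rfl⟩ := mem_map.1 (key1 c hc)
    refine vc3 hnice hj1 hj2 hj3 ((hF _ _).1 (key1 _ ha)) ((hF _ _).1 (key1 _ hb))
      ((hF _ _).1 (key1 _ hc)) ((hF _ _).1 ((key2 _ ha).2 (Or.inl rfl)))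
      ((hF _ _).1 ((key2 _ hb).2 (Or.inr rfl))) ?_ ?_ ((hF _ _).1 ((key3 _ hb).2 (Or.inl rfl)))
      ((hF _ _).1 ((key3 _ hc).2 (Or.inr rfl)))
    · intro hmem
      rcases (key2 _ hc).1 ((hF _ _).2 hmem) with h | h
      · exact hac h.symm
      · exact hbc h.symm
    · intro hmem
      rcases (key3 _ ha).1 ((hF _ _).2 hmem) with h | h
      · exact hab h
      · exact hac h
  · intro A
    let alg : List (J (48 * x) (2 ^ (2000 * x))) → Finset (X (1000 * x) (2 ^ (2000 * x))) :=
      fun h => univ.filter (fun p => e p ∈ A.sel (h.map F))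
    have hinput : ∀ h : List (J (48 * x) (2 ^ (2000 * x))), (∀ j ∈ h, j ∈ I) →
        IsInput (I.image F) (h.map F) := by
      intro h h1 s hs
      rw [List.mem_map] at hs
      obtain ⟨j, hj, rfl⟩ := hs
      exact ⟨mem_image_of_mem _ (h1 j hj), (hSne j (h1 j hj)).map⟩
    have halg : Alg hL I alg := by
      constructor
      · intro h j hh hj p hp
        simp only [alg, mem_filter, mem_univ, true_and] at hp ⊢
        rw [List.map_append]
        refine A.irrevocable (h.map F) (F j) ?_ hp
        have := hinput (h ++ [j]) (by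
          intro i hi
          rw [List.mem_append, List.mem_singleton] at hi
          rcases hi with hi | rfl
          · exact hh i hi
          · exact hj)
        rw [List.map_append] at this
        exact this
      · intro h hh j hj
        obtain ⟨v, hv1, hv2⟩ := A.hits (h.map F) (hinput h hh) (F j) (List.mem_map_of_mem hj)
        obtain ⟨p, hp, rfl⟩ := mem_map.1 hv2
        exact ⟨p, by simpa [alg] using hv1, hp⟩
    obtain ⟨h, hne, hhI, ⟨z, hz⟩, hcost⟩ := core hx hL hq hrich halg
    have hhit : IsHitting ((univ : Finset (Fin (2 ^ (2000 * x)))).image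
        (fun i => e (i, z))) (h.map F) := by
      intro s hs
      rw [List.mem_map] at hs
      obtain ⟨j, hj, rfl⟩ := hs
      obtain ⟨i, hi⟩ := hz j hj
      exact ⟨e (i, z), mem_image_of_mem _ (mem_univ _), (hF _ _).2 hi⟩
    have hopt : opt (h.map F) ≤ 2 ^ (2000 * x) := by
      refine (exists_min hhit).trans (card_image_le.trans ?_)
      rw [card_univ, Fintype.card_fin]
    refine ⟨h.map F, hinput h hhI, opt_pos hhit (by simpa using hne), ?_⟩
    have hcard : (alg h).card ≤ (A.sel (h.map F)).card :=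
      card_le_card_of_injOn e (fun p hp => by simpa [alg] using hp) e.injective.injOn
    have hlog0 : 0 ≤ Real.log n := Real.log_natCast_nonneg n
    have hlog2 : (Real.log n) ^ 2 ≤ (6000 * x) ^ 2 := by
      refine pow_le_pow_left₀ hlog0 (hlog.trans (le_of_eq ?_)) 2
      push_cast
      ring
    have hopt' : ((opt (h.map F) : ℕ) : ℝ) ≤ ((2 ^ (2000 * x) : ℕ) : ℝ) := by
      exact_mod_cast hopt
    calc (1 / 1000000 : ℝ) * (Real.log n) ^ 2 * (opt (h.map F) : ℕ)
        ≤ 1 / 1000000 * (6000 * x) ^ 2 * ((2 ^ (2000 * x) : ℕ) : ℝ) := by gcongr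
      _ ≤ 488 * (x : ℝ) ^ 2 * ((2 ^ (2000 * x) : ℕ) : ℝ) := by
          refine mul_le_mul_of_nonneg_right ?_ (by positivity)
          nlinarith [sq_nonneg (x : ℝ)]
      _ = ((488 * x ^ 2 * 2 ^ (2000 * x) : ℕ) : ℝ) := by push_cast; ring
      _ ≤ ((alg h).card : ℝ) := by exact_mod_cast hcost
      _ ≤ ((A.sel (h.map F)).card : ℝ) := by exact_mod_cast hcard

end Pool.Agent.Results.MP_ba67f2_lc.HittingSetLower
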