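import Pool.Agent.K3h91.OSC.System

/-!
Deterministic online set cover on set systems of VC-dimension at most 2 has competitive ratio
of order at least `log ^ 2 n`.
-/

namespace Pool.Agent.Results.MP_ba67f2_lc.SetCoverLower

open Finset

/-- An input of the online set cover problem on the set system `(Fin n, 𝒮)`: a list of points, in
their order of arrival, each lying in some member of `𝒮`. -/
def IsInput {n : ℕ} (𝒮 : Finset (Finset (Fin n))) (h : List (Fin n)) : Prop :=
  ∀ p ∈ h, ∃ s ∈ 𝒮, p ∈ s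

/-- The family `C` covers every point of the list `h`. -/
def IsCover {n : ℕ} (C : Finset (Finset (Fin n))) (h : List (Fin n)) : Prop :=
  ∀ p ∈ h, ∃ s ∈ C, p ∈ s

/-- The minimum number of members of `𝒮` covering the points of the list `h`. -/
noncomputable def opt {n : ℕ} (𝒮 : Finset (Finset (Fin n))) (h : List (Fin n)) : ℕ :=
  sInf {k | ∃ C ⊆ 𝒮, IsCover C h ∧ C.card = k}

/-- A deterministic online algorithm for set cover on the set system `(Fin n, 𝒮)` (it may depend
on the whole system): `sel h` is the family of sets selected once the points of the list `h` have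
arrived in this order; selections are irrevocable, and after each arrival every arrived point
is covered. Any number of sets may be selected at any time. -/
structure OnlineAlg {n : ℕ} (𝒮 : Finset (Finset (Fin n))) where
  /-- the selected sets after the arrival of the points in the list -/
  sel : List (Fin n) → Finset (Finset (Fin n))
  selects : ∀ h, IsInput 𝒮 h → sel h ⊆ 𝒮
  irrevocable : ∀ h p, IsInput 𝒮 (h ++ [p]) → sel h ⊆ sel (h ++ [p])
  covers : ∀ h, IsInput 𝒮 h → IsCover (sel h) h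

lemma opt_le {n : ℕ} {𝒮 : Finset (Finset (Fin n))} {h : List (Fin n)}
    {C : Finset (Finset (Fin n))} (hC : C ⊆ 𝒮) (hH : IsCover C h) :
    opt 𝒮 h ≤ C.card := Nat.sInf_le ⟨C, hC, hH, rfl⟩

lemma opt_pos {n : ℕ} {𝒮 : Finset (Finset (Fin n))} {h : List (Fin n)}
    {C : Finset (Finset (Fin n))} (hC : C ⊆ 𝒮) (hH : IsCover C h)
    (hne : h ≠ []) : 0 < opt 𝒮 h := by
  have hmem : opt 𝒮 h ∈ {k | ∃ C ⊆ 𝒮, IsCover C h ∧ C.card = k} :=
    Nat.sInf_mem ⟨C.card, C, hC, hH, rfl⟩
  obtain ⟨C', _, hC', hc⟩ := hmem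
  rw [← hc, card_pos]
  obtain ⟨p, hp⟩ := List.exists_mem_of_ne_nil h hne
  obtain ⟨s, hs, _⟩ := hC' p hp
  exact ⟨s, hs⟩

open Pool.Agent.K3h91.OSC in
/-- There are `c > 0` and `n₀` such that for every `n ≥ n₀` there is a set system on `n` points, of
VC-dimension at most 2, on which every deterministic online set cover algorithm has an input on
which its cost is at least `c (log n)² ` times the (positive) optimum. -/
theorem result : ∃ c : ℝ, 0 < c ∧ ∃ n₀ : ℕ, ∀ n ≥ n₀,
    ∃ 𝒮 : Finset (Finset (Fin n)), 𝒮.vcDim ≤ 2 ∧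
      ∀ A : OnlineAlg 𝒮, ∃ h, IsInput 𝒮 h ∧ 0 < opt 𝒮 h ∧
        c * (Real.log n) ^ 2 * opt 𝒮 h ≤ (A.sel h).card := by
  classical
  refine ⟨1 / 1000000, by norm_num, 2 ^ 3500, fun n hn => ?_⟩
  obtain ⟨hx, hxn, hlog⟩ := log_bound (a := 3500) (by norm_num) hn
  set x := Nat.log 2 n / 3500 with hxdef
  have hL : 0 < 48 * x := by omega
  obtain ⟨I, hnice, hrich, hIcard, hSne⟩ := exists_system hx hL
  have hq : 0 < 2 ^ (2000 * x) := by positivity
  obtain ⟨e⟩ : Nonempty (I ↪ Fin n) := by
    apply Function.Embedding.nonempty_of_card_le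
    simp only [Fintype.card_coe, Fintype.card_fin]
    exact hIcard.trans hxn
  have hn0 : 0 < n := lt_of_lt_of_le (by positivity) hn
  let E : J (48 * x) (2 ^ (2000 * x)) → Fin n := fun j =>
    if hj : j ∈ I then e ⟨j, hj⟩ else ⟨0, hn0⟩
  have hE : ∀ j ∈ I, ∀ j' ∈ I, E j = E j' → j = j' := by
    intro j hj j' hj' h
    simp only [E, hj, hj', dif_pos] at h
    have := e.injective h
    simpa using this
  let D : X (1000 * x) (2 ^ (2000 * x)) → Finset (Fin n) := fun p =>
    (I.filter (fun j => p ∈ S (H := 1000 * x) hL j)).image E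
  have hD : ∀ j ∈ I, ∀ p, E j ∈ D p ↔ p ∈ S (H := 1000 * x) hL j := by
    intro j hj p
    simp only [D, mem_image, mem_filter]
    constructor
    · rintro ⟨j', ⟨hj', hp⟩, h⟩
      rw [hE j hj j' hj' h.symm]
      exact hp
    · intro hp
      exact ⟨j, ⟨hj, hp⟩, rfl⟩
  have hDmem : ∀ p, ∀ y ∈ D p, ∃ j ∈ I, E j = y := by
    intro p y hy
    simp only [D, mem_image, mem_filter] at hy
    obtain ⟨j, ⟨hj, _⟩, h⟩ := hy
    exact ⟨j, hj, h⟩
  refine ⟨univ.image D, ?_, ?_⟩
  · unfold vcDim
    refine Finset.sup_le fun s hs => ?_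
    rw [mem_shatterer] at hs
    by_contra hcon
    push Not at hcon
    obtain ⟨a, b, c, ha, hb, hc, hab, hac, hbc⟩ := two_lt_card_iff.1 hcon
    obtain ⟨u1, hu1, h1⟩ := hs (subset_refl s)
    obtain ⟨u2, hu2, h2⟩ := hs (show {a, b} ⊆ s by
      intro y hy; rw [mem_insert, mem_singleton] at hy; rcases hy with rfl | rfl <;> assumption)
    obtain ⟨u3, hu3, h3⟩ := hs (show {b, c} ⊆ s by
      intro y hy; rw [mem_insert, mem_singleton] at hy; rcases hy with rfl | rfl <;> assumption)
    rw [mem_image] at hu1 hu2 hu3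
    obtain ⟨p1, _, rfl⟩ := hu1
    obtain ⟨p2, _, rfl⟩ := hu2
    obtain ⟨p3, _, rfl⟩ := hu3
    have key1 : ∀ y ∈ s, y ∈ D p1 := by
      intro y hy
      rw [← h1] at hy
      exact (mem_inter.1 hy).2
    have key2 : ∀ y ∈ s, (y ∈ D p2 ↔ y = a ∨ y = b) := by
      intro y hy
      have : y ∈ s ∩ D p2 ↔ y ∈ ({a, b} : Finset (Fin n)) := by rw [h2]
      simpa [hy] using this
    have key3 : ∀ y ∈ s, (y ∈ D p3 ↔ y = b ∨ y = c) := by
      intro y hy
      have : y ∈ s ∩ D p3 ↔ y ∈ ({b, c} : Finset (Fin n)) := by rw [h3]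
      simpa [hy] using this
    obtain ⟨ja, hja, rfl⟩ := hDmem p1 a (key1 a ha)
    obtain ⟨jb, hjb, rfl⟩ := hDmem p1 b (key1 b hb)
    obtain ⟨jc, hjc, rfl⟩ := hDmem p1 c (key1 c hc)
    refine dvc3 hnice hja hjb hjc (fun h => hab (by rw [h])) (fun h => hbc (by rw [h]))
      ((hD _ hja _).1 (key1 _ ha)) ((hD _ hjb _).1 (key1 _ hb))
      ((hD _ hjc _).1 (key1 _ hc)) ((hD _ hja _).1 ((key2 _ ha).2 (Or.inl rfl)))
      ((hD _ hjb _).1 ((key2 _ hb).2 (Or.inr rfl))) ?_ ?_
      ((hD _ hjb _).1 ((key3 _ hb).2 (Or.inl rfl)))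
      ((hD _ hjc _).1 ((key3 _ hc).2 (Or.inr rfl)))
    · intro hmem
      rcases (key2 _ hc).1 ((hD _ hjc _).2 hmem) with h | h
      · exact hac h.symm
      · exact hbc h.symm
    · intro hmem
      rcases (key3 _ ha).1 ((hD _ hja _).2 hmem) with h | h
      · exact hab h
      · exact hac h
  · intro A
    have hpos : Nonempty (X (1000 * x) (2 ^ (2000 * x))) :=
      ⟨(⟨0, hq⟩, ⟨0, by positivity⟩)⟩
    let rep : Finset (Fin n) → X (1000 * x) (2 ^ (2000 * x)) := fun d =>
      if h : ∃ p, D p = d then h.choose else Classical.choice hpos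
    have hrep : ∀ d ∈ univ.image D, D (rep d) = d := by
      intro d hd
      rw [mem_image] at hd
      obtain ⟨p, _, hp⟩ := hd
      have h : ∃ p, D p = d := ⟨p, hp⟩
      simp only [rep, dif_pos h]
      exact h.choose_spec
    let alg : List (J (48 * x) (2 ^ (2000 * x))) → Finset (X (1000 * x) (2 ^ (2000 * x))) :=
      fun h => (A.sel (h.map E)).image rep
    have hinput : ∀ h : List (J (48 * x) (2 ^ (2000 * x))), (∀ j ∈ h, j ∈ I) →
        IsInput (univ.image D) (h.map E) := by
      intro h h1 y hy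
      rw [List.mem_map] at hy
      obtain ⟨j, hj, rfl⟩ := hy
      obtain ⟨p, hp⟩ := hSne j (h1 j hj)
      exact ⟨D p, mem_image_of_mem _ (mem_univ _), (hD j (h1 j hj) p).2 hp⟩
    have halg : Alg hL I alg := by
      constructor
      · intro h j hh hj
        simp only [alg]
        rw [List.map_append]
        refine image_subset_image (A.irrevocable (h.map E) (E j) ?_)
        have := hinput (h ++ [j]) (by
          intro i hi
          rw [List.mem_append, List.mem_singleton] at hi
          rcases hi with hi | rfl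
          · exact hh i hi
          · exact hj)
        rw [List.map_append] at this
        exact this
      · intro h hh j hj
        obtain ⟨d, hd1, hd2⟩ := A.covers (h.map E) (hinput h hh) (E j) (List.mem_map_of_mem hj)
        have hd3 := A.selects (h.map E) (hinput h hh) hd1
        refine ⟨rep d, mem_image_of_mem _ hd1, ?_⟩
        rw [← hD j (hh j hj), hrep d hd3]
        exact hd2
    obtain ⟨h, hne, hhI, ⟨z, hz⟩, hcost⟩ := core hx hL hq hrich halg
    have hsub : (univ : Finset (Fin (2 ^ (2000 * x)))).image (fun i => D (i, z)) ⊆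
        univ.image D := by
      intro d hd
      rw [mem_image] at hd
      obtain ⟨i, _, rfl⟩ := hd
      exact mem_image_of_mem _ (mem_univ _)
    have hcov : IsCover ((univ : Finset (Fin (2 ^ (2000 * x)))).image
        (fun i => D (i, z))) (h.map E) := by
      intro y hy
      rw [List.mem_map] at hy
      obtain ⟨j, hj, rfl⟩ := hy
      obtain ⟨i, hi⟩ := hz j hj
      exact ⟨D (i, z), mem_image_of_mem _ (mem_univ _), (hD j (hhI j hj) _).2 hi⟩
    have hopt : opt (univ.image D) (h.map E) ≤ 2 ^ (2000 * x) := by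
      refine (opt_le hsub hcov).trans (card_image_le.trans ?_)
      rw [card_univ, Fintype.card_fin]
    refine ⟨h.map E, hinput h hhI, opt_pos hsub hcov (by simpa using hne), ?_⟩
    have hcard : (alg h).card ≤ (A.sel (h.map E)).card := card_image_le
    have hlog0 : 0 ≤ Real.log n := Real.log_natCast_nonneg n
    have hlog2 : (Real.log n) ^ 2 ≤ (7000 * x) ^ 2 := by
      refine pow_le_pow_left₀ hlog0 (hlog.trans (le_of_eq ?_)) 2
      push_cast
      ring
    have hopt' : ((opt (univ.image D) (h.map E) : ℕ) : ℝ) ≤ ((2 ^ (2000 * x) : ℕ) : ℝ) := by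
      exact_mod_cast hopt
    calc (1 / 1000000 : ℝ) * (Real.log n) ^ 2 * (opt (univ.image D) (h.map E) : ℕ)
        ≤ 1 / 1000000 * (7000 * x) ^ 2 * ((2 ^ (2000 * x) : ℕ) : ℝ) := by gcongr
      _ ≤ 488 * (x : ℝ) ^ 2 * ((2 ^ (2000 * x) : ℕ) : ℝ) := by
          refine mul_le_mul_of_nonneg_right ?_ (by positivity)
          nlinarith [sq_nonneg (x : ℝ)]
      _ = ((488 * x ^ 2 * 2 ^ (2000 * x) : ℕ) : ℝ) := by push_cast; ring
      _ ≤ ((alg h).card : ℝ) := by exact_mod_cast hcost
      _ ≤ ((A.sel (h.map E)).card : ℝ) := by exact_mod_cast hcard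

end Pool.Agent.Results.MP_ba67f2_lc.SetCoverLower
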